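import Pool.Agent.W516.MTZ.Stm

/-!
# MTZ-NIL: in a group with a finite central series, a subgroup which supplements the commutator
subgroup is everything
-/

set_option autoImplicit false

namespace Pool.Agent.W253.MTZ

open Pool.Agent.W516.MTZ

theorem T_NIL : StNil := by
  intro N _ F hN h0 hc hk H hH
  have key : ∀ k, ∀ g : N, ∃ h ∈ H, h⁻¹ * g ∈ F k := by
    intro k
    induction k with
    | zero =>
      intro g
      refine ⟨1, H.one_mem, ?_⟩
      rw [h0]
      exact Subgroup.mem_top _
    | succ k ih =>
      have := hN (k + 1)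
      -- elements of `F k` are central modulo `F (k + 1)`
      have hcen : ∀ a : N, ∀ b ∈ F k,
          (QuotientGroup.mk' (F (k + 1)) a) * (QuotientGroup.mk' (F (k + 1)) b) =
          (QuotientGroup.mk' (F (k + 1)) b) * (QuotientGroup.mk' (F (k + 1)) a) := by
        intro a b hb
        have h1 := hc k a b hb
        have h2 : QuotientGroup.mk' (F (k + 1)) (a * b * a⁻¹ * b⁻¹) = 1 := by
          rw [← MonoidHom.mem_ker, QuotientGroup.ker_mk']
          exact h1
        rw [map_mul, map_mul, map_mul, map_inv, map_inv, mul_inv_eq_one, mul_inv_eq_iff_eq_mul] at h2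
        exact h2
      have hcom : commutator N ≤
          (H.map (QuotientGroup.mk' (F (k + 1)))).comap (QuotientGroup.mk' (F (k + 1))) := by
        rw [commutator_def, Subgroup.commutator_le]
        intro a _ b _
        obtain ⟨h₁, hh₁, hf₁⟩ := ih a
        obtain ⟨h₂, hh₂, hf₂⟩ := ih b
        rw [Subgroup.mem_comap]
        refine ⟨h₁ * h₂ * h₁⁻¹ * h₂⁻¹, ?_, ?_⟩
        · exact H.mul_mem (H.mul_mem (H.mul_mem hh₁ hh₂) (H.inv_mem hh₁)) (H.inv_mem hh₂)
        · rw [commutatorElement_def, map_mul, map_mul, map_mul, map_inv, map_inv, map_mul, map_mul,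
            map_mul, map_inv, map_inv]
          have ea : QuotientGroup.mk' (F (k + 1)) a =
              QuotientGroup.mk' (F (k + 1)) h₁ * QuotientGroup.mk' (F (k + 1)) (h₁⁻¹ * a) := by
            rw [← map_mul, mul_inv_cancel_left]
          have eb : QuotientGroup.mk' (F (k + 1)) b =
              QuotientGroup.mk' (F (k + 1)) h₂ * QuotientGroup.mk' (F (k + 1)) (h₂⁻¹ * b) := by
            rw [← map_mul, mul_inv_cancel_left]
          have c1 : ∀ x : N ⧸ F (k + 1), x * QuotientGroup.mk' (F (k + 1)) (h₁⁻¹ * a) =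
              QuotientGroup.mk' (F (k + 1)) (h₁⁻¹ * a) * x := by
            intro x
            obtain ⟨y, rfl⟩ := QuotientGroup.mk'_surjective _ x
            exact hcen y _ hf₁
          have c2 : ∀ x : N ⧸ F (k + 1), x * QuotientGroup.mk' (F (k + 1)) (h₂⁻¹ * b) =
              QuotientGroup.mk' (F (k + 1)) (h₂⁻¹ * b) * x := by
            intro x
            obtain ⟨y, rfl⟩ := QuotientGroup.mk'_surjective _ x
            exact hcen y _ hf₂
          rw [ea, eb]
          generalize QuotientGroup.mk' (F (k + 1)) (h₁⁻¹ * a) = z at c1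
          generalize QuotientGroup.mk' (F (k + 1)) (h₂⁻¹ * b) = w at c2
          generalize QuotientGroup.mk' (F (k + 1)) h₁ = x
          generalize QuotientGroup.mk' (F (k + 1)) h₂ = y
          rw [mul_inv_rev, mul_inv_rev]
          have e1 : x * z * (y * w) * (z⁻¹ * x⁻¹) * (w⁻¹ * y⁻¹) =
              x * y * x⁻¹ * y⁻¹ := by
            have s1 : x * z * (y * w) = x * y * w * z := by
              rw [mul_assoc x z, ← c1 (y * w)]
              simp only [mul_assoc]
            rw [s1]
            have s2 : x * y * w * z * (z⁻¹ * x⁻¹) = x * y * (x⁻¹ * w) := by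
              rw [c2 x⁻¹]
              simp only [mul_assoc, mul_inv_cancel_left]
            rw [s2]
            simp only [mul_assoc, mul_inv_cancel_left]
          exact e1.symm
      intro g
      obtain ⟨h, hh, hg⟩ := hH g
      have h3 := hcom hg
      rw [Subgroup.mem_comap] at h3
      obtain ⟨h', hh', e⟩ := h3
      refine ⟨h * h', H.mul_mem hh hh', ?_⟩
      have h4 : QuotientGroup.mk' (F (k + 1)) ((h * h')⁻¹ * g) = 1 := by
        rw [mul_inv_rev, mul_assoc, map_mul, ← e, map_inv, inv_mul_cancel]
      rw [← MonoidHom.mem_ker, QuotientGroup.ker_mk'] at h4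
      exact h4
  obtain ⟨k, hk⟩ := hk
  rw [eq_top_iff]
  intro g _
  obtain ⟨h, hh, hg⟩ := key k g
  rw [hk, Subgroup.mem_bot, inv_mul_eq_one] at hg
  rw [← hg]
  exact hh

end Pool.Agent.W253.MTZ
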